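import Pool.Agent.H54.XN.BCl
import Pool.Agent.H72.FB4.Cls

/-!
# Products of nef b-classes below a nef class of numerical dimension two (MP_5ee2d0_ag)
-/

namespace Pool.Agent.H88.XN

open Pool.Agent.H54.XN Pool.Agent.H72.FB4 Multiset

section multi

variable {V : Type} [AddCommGroup V]

/-- Two functions of multisets, linear in every entry, are proportional if they are so locally. -/
theorem glue {f g : Multiset V → ℝ} (hf : ∀ x y s, f ((x - y) ::ₘ s) = f (x ::ₘ s) - f (y ::ₘ s))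
    (hg : ∀ x y s, g ((x - y) ::ₘ s) = g (x ::ₘ s) - g (y ::ₘ s)) {S : Set V} {a : V} (ha : a ∈ S)
    (hS : ∀ x, ∃ y ∈ S, ∃ z ∈ S, x = y - z) {N : ℕ} {K : ℝ}
    (hK : f (replicate N a) = K * g (replicate N a))
    (hpos : ∀ t : Multiset V, (∀ x ∈ t, x ∈ S) → card t + 1 = N → 0 < g (a ::ₘ t))
    (hloc : ∀ t : Multiset V, (∀ x ∈ t, x ∈ S) → card t + 1 = N → ∀ y ∈ S,
      f (y ::ₘ t) * g (a ::ₘ t) = f (a ::ₘ t) * g (y ::ₘ t)) (s : Multiset V) (hs : card s = N) :
    f s = K * g s := by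
  have h1 : ∀ t : Multiset V, (∀ x ∈ t, x ∈ S) → ∀ j, card t + j = N →
      f (t + replicate j a) = K * g (t + replicate j a) := by
    intro t
    induction t using Multiset.induction_on with
    | empty =>
      intro _ j hj
      rw [card_zero, zero_add] at hj
      rw [zero_add, hj]
      exact hK
    | cons y t ih =>
      intro ht j hj
      rw [card_cons] at hj
      set T := t + replicate j a with hT
      have hTS : ∀ x ∈ T, x ∈ S := by
        intro x hx
        rw [hT, mem_add] at hx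
        rcases hx with hx | hx
        · exact ht x (mem_cons_of_mem hx)
        · rw [eq_of_mem_replicate hx]
          exact ha
      have hTc : card T + 1 = N := by
        rw [hT, card_add, card_replicate]
        omega
      have e1 := hloc T hTS hTc y (ht y (mem_cons_self _ _))
      have e2 := ih (fun x hx => ht x (mem_cons_of_mem hx)) (j + 1) (by omega)
      have e3 : t + replicate (j + 1) a = a ::ₘ T := by
        rw [replicate_succ, add_cons, hT]
      rw [e3] at e2
      rw [e2] at e1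
      have e4 := hpos T hTS hTc
      have e5 : f (y ::ₘ T) = K * g (y ::ₘ T) := by
        have : f (y ::ₘ T) * g (a ::ₘ T) = (K * g (y ::ₘ T)) * g (a ::ₘ T) := by
          rw [e1]; ring
        exact mul_right_cancel₀ e4.ne' this
      rw [cons_add]
      exact e5
  have h2 : ∀ t : Multiset V, ∀ s' : Multiset V, (∀ x ∈ s', x ∈ S) → card t + card s' = N →
      f (t + s') = K * g (t + s') := by
    intro t
    induction t using Multiset.induction_on with
    | empty =>
      intro s' hs' hc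
      have := h1 s' hs' 0 (by rw [card_zero] at hc; omega)
      rw [replicate_zero, add_zero] at this
      rwa [zero_add]
    | cons x t ih =>
      intro s' hs' hc
      rw [card_cons] at hc
      obtain ⟨y, hy, z, hz, rfl⟩ := hS x
      have e : ∀ w ∈ S, f (w ::ₘ (t + s')) = K * g (w ::ₘ (t + s')) := by
        intro w hw
        rw [← add_cons]
        refine ih (w ::ₘ s') (fun x hx => ?_) (by rw [card_cons]; omega)
        rcases mem_cons.1 hx with rfl | hx
        · exact hw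
        · exact hs' x hx
      rw [cons_add, hf, hg, e y hy, e z hz]
      ring
  have := h2 s 0 (by simp) (by rw [card_zero]; omega)
  rwa [add_zero] at this

/-- A function of multisets, linear in every entry, is zero if it is so on a generating set. -/
theorem ext0 {f : Multiset V → ℝ} (hf : ∀ x y s, f ((x - y) ::ₘ s) = f (x ::ₘ s) - f (y ::ₘ s))
    {S : Set V} (hS : ∀ x, ∃ y ∈ S, ∃ z ∈ S, x = y - z) {N : ℕ}
    (h : ∀ t : Multiset V, (∀ x ∈ t, x ∈ S) → card t = N → f t = 0) (s : Multiset V)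
    (hs : card s = N) : f s = 0 := by
  have h2 : ∀ t : Multiset V, ∀ s' : Multiset V, (∀ x ∈ s', x ∈ S) → card t + card s' = N →
      f (t + s') = 0 := by
    intro t
    induction t using Multiset.induction_on with
    | empty =>
      intro s' hs' hc
      rw [zero_add]
      exact h s' hs' (by rw [card_zero] at hc; omega)
    | cons x t ih =>
      intro s' hs' hc
      rw [card_cons] at hc
      obtain ⟨y, hy, z, hz, rfl⟩ := hS x
      have e : ∀ w ∈ S, f (w ::ₘ (t + s')) = 0 := by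
        intro w hw
        rw [← add_cons]
        refine ih (w ::ₘ s') (fun x hx => ?_) (by rw [card_cons]; omega)
        rcases mem_cons.1 hx with rfl | hx
        · exact hw
        · exact hs' x hx
      rw [cons_add, hf, e y hy, e z hz, sub_zero]
  have := h2 s 0 (by simp) (by rw [card_zero]; omega)
  rwa [add_zero] at this

/-- The binomial formula if all products with three factors `x` are zero. -/
theorem binom {f : Multiset V → ℝ} (hf : ∀ x y s, f ((x + y) ::ₘ s) = f (x ::ₘ s) + f (y ::ₘ s))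
    {x z : V} {M : ℕ} (hx : ∀ t : Multiset V, card t + 3 = M → f (x ::ₘ x ::ₘ x ::ₘ t) = 0)
    (N : ℕ) : ∀ s : Multiset V, N + card s = M → f (replicate N (x + z) + s) =
      f (replicate N z + s) + N * f (x ::ₘ (replicate (N - 1) z + s)) +
        N * (N - 1) / 2 * f (x ::ₘ x ::ₘ (replicate (N - 2) z + s)) := by
  induction N with
  | zero =>
    intro s _
    simp
  | succ N ih =>
    intro s hs
    have e0 : replicate (N + 1) (x + z) + s = (x + z) ::ₘ (replicate N (x + z) + s) := by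
      rw [replicate_succ, cons_add]
    have e1 := ih (x ::ₘ s) (by rw [card_cons]; omega)
    have e2 := ih (z ::ₘ s) (by rw [card_cons]; omega)
    rw [e0, hf, ← add_cons, ← add_cons, e1, e2]
    -- the terms
    have a1 : replicate N z + z ::ₘ s = replicate (N + 1) z + s := by
      rw [replicate_succ, add_cons, cons_add]
    have a2 : replicate N z + x ::ₘ s = x ::ₘ (replicate N z + s) := add_cons _ _ _
    rcases Nat.eq_zero_or_pos N with h | h
    · subst h
      simp
      ring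
    · obtain ⟨n, rfl⟩ : ∃ n, N = n + 1 := ⟨N - 1, by omega⟩
      have b1 : replicate (n + 1 - 1) z + x ::ₘ s = x ::ₘ (replicate n z + s) := by
        rw [Nat.add_sub_cancel]; exact add_cons _ _ _
      have b2 : replicate (n + 1 - 1) z + z ::ₘ s = replicate (n + 1) z + s := by
        rw [Nat.add_sub_cancel, replicate_succ, add_cons, cons_add]
      have b3 : f (x ::ₘ x ::ₘ (replicate (n + 1 - 2) z + x ::ₘ s)) * ((n : ℝ) + 1) * n = 0 := by
        rcases Nat.eq_zero_or_pos n with h' | h'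
        · subst h'
          simp
        · rw [add_cons, hx (replicate (n + 1 - 2) z + s) (by
            rw [card_add, card_replicate]; omega), zero_mul, zero_mul]
      have b4 : f (x ::ₘ x ::ₘ (replicate (n + 1 - 2) z + z ::ₘ s)) * n =
          f (x ::ₘ x ::ₘ (replicate n z + s)) * n := by
        rcases Nat.eq_zero_or_pos n with h' | h'
        · subst h'
          simp
        · have : replicate (n + 1 - 2) z + z ::ₘ s = replicate n z + s := by
            have h3 : n = (n + 1 - 2) + 1 := by omega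
            conv_rhs => rw [h3, replicate_succ]
            rw [add_cons, cons_add]
          rw [this]
      rw [a1, a2, b1, b2]
      have c1 : n + 1 + 1 - 1 = n + 1 := by omega
      have c2 : n + 1 + 1 - 2 = n := by omega
      have c3 : n + 1 - 2 = n - 1 := by omega
      rw [c1, c2, c3]
      rw [c3] at b3 b4
      push_cast
      linear_combination b3 / 2 + ((n : ℝ) + 1) / 2 * b4

end multi

variable {r m : ℕ} {B : BCl r m}

theorem I_add (x y : B.V) (s : Multiset B.V) :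
    B.I ((x + y) ::ₘ s) = B.I (x ::ₘ s) + B.I (y ::ₘ s) :=
  (IsLinearMap.mk' _ (B.I_lin s)).map_add x y

theorem I_sub (x y : B.V) (s : Multiset B.V) :
    B.I ((x - y) ::ₘ s) = B.I (x ::ₘ s) - B.I (y ::ₘ s) :=
  (IsLinearMap.mk' _ (B.I_lin s)).map_sub x y

theorem I_smul (t : ℝ) (x : B.V) (s : Multiset B.V) :
    B.I ((t • x) ::ₘ s) = t * B.I (x ::ₘ s) :=
  (IsLinearMap.mk' _ (B.I_lin s)).map_smul t x

theorem I_zero (s : Multiset B.V) : B.I (0 ::ₘ s) = 0 :=
  (IsLinearMap.mk' _ (B.I_lin s)).map_zero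

/-- the form `x.y.s` -/
theorem lor {s : Multiset B.V} (hs : ∀ a ∈ s, B.Nef a) :
    Lor (fun x y => B.I (x ::ₘ y ::ₘ s)) {v | B.Nef v} where
  add x y z := I_add x y _
  smul t x z := I_smul t x _
  symm x y := by rw [cons_swap]
  nef_add a ha b hb := B.nef_add a b ha hb
  nef_smul a ha t ht := B.nef_smul t a ht ha
  nonneg a ha b hb := B.nonneg _ (by
    intro c hc
    rcases mem_cons.1 hc with rfl | hc
    · exact ha
    rcases mem_cons.1 hc with rfl | hc
    · exact hb
    exact hs c hc)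
  index h hh x h1 h2 := B.index s x h hs h1 (by rw [cons_swap]; exact h2)

/-- the classes `h + a`, `h` nef -/
def Big (B : BCl r m) (a : B.V) : Set B.V := {x | ∃ h, B.Nef h ∧ x = h + a}

theorem nef_zero : B.Nef 0 := by
  have := B.nef_smul 0 _ le_rfl B.nef_A
  rwa [zero_smul] at this

theorem big_self (a : B.V) : a ∈ Big B a := ⟨0, nef_zero, by rw [zero_add]⟩

theorem big_gen (a x : B.V) : ∃ y ∈ Big B a, ∃ z ∈ Big B a, x = y - z := by
  obtain ⟨p, q, hp, hq, rfl⟩ := B.gen x
  exact ⟨p + a, ⟨p, hp, rfl⟩, q + a, ⟨q, hq, rfl⟩, by rw [add_sub_add_right_eq_sub]⟩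

theorem big_nef {a : B.V} (ha : B.Nef a) {x : B.V} (hx : x ∈ Big B a) : B.Nef x := by
  obtain ⟨h, hh, rfl⟩ := hx
  exact B.nef_add _ _ hh ha

theorem nef_cons {x : B.V} {s : Multiset B.V} (hx : B.Nef x) (hs : ∀ a ∈ s, B.Nef a) :
    ∀ a ∈ x ::ₘ s, B.Nef a := by
  intro c hc
  rcases mem_cons.1 hc with rfl | hc
  · exact hx
  exact hs c hc

theorem nef_rep {x : B.V} (hx : B.Nef x) (n : ℕ) : ∀ a ∈ replicate n x, B.Nef a := by
  intro c hc
  rw [eq_of_mem_replicate hc]
  exact hx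

/-- `l^2` is positive on products of big classes. -/
theorem pos_big {l a : B.V} (hl : B.Nef l) (ha : B.Nef a)
    (haa : 0 < B.I (l ::ₘ l ::ₘ replicate (m + 2) a)) (t : Multiset B.V)
    (ht : ∀ x ∈ t, x ∈ Big B a) : ∀ j, card t + j = m + 2 →
      0 < B.I (l ::ₘ l ::ₘ (t + replicate j a)) := by
  induction t using Multiset.induction_on with
  | empty =>
    intro j hj
    rw [card_zero, zero_add] at hj
    rw [zero_add, hj]
    exact haa
  | cons x t ih =>
    intro j hj
    rw [card_cons] at hj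
    obtain ⟨h, hh, rfl⟩ := ht x (mem_cons_self _ _)
    have e1 := ih (fun x hx => ht x (mem_cons_of_mem hx)) (j + 1) (by omega)
    rw [replicate_succ, add_cons, cons_swap l a, cons_swap l a] at e1
    rw [cons_add, cons_swap l (h + a), cons_swap l (h + a), I_add]
    have e2 : 0 ≤ B.I (h ::ₘ l ::ₘ l ::ₘ (t + replicate j a)) := B.nonneg _ (by
      refine nef_cons hh (nef_cons hl (nef_cons hl ?_))
      intro c hc
      rcases mem_add.1 hc with hc | hc
      · exact big_nef ha (ht c (mem_cons_of_mem hc))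
      · exact nef_rep ha j c hc)
    linarith

theorem pos_big' {l a : B.V} (hl : B.Nef l) (ha : B.Nef a)
    (haa : 0 < B.I (l ::ₘ l ::ₘ replicate (m + 2) a)) {t : Multiset B.V}
    (ht : ∀ x ∈ t, x ∈ Big B a) (hc : card t = m + 2) : 0 < B.I (l ::ₘ l ::ₘ t) := by
  have := pos_big hl ha haa t ht 0 (by omega)
  rwa [replicate_zero, add_zero] at this

/-- Let `l`, `v` be nef, `l^3 = 0`, `l^2 v = 0`, `l^2` not zero: `v^2 l = 0`, and `v l` is a multiple of
`l^2`. -/
theorem mul_l {l v a : B.V} (hl : B.Nef l) (hv : B.Nef v) (ha : B.Nef a)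
    (hlll : ∀ s, card s = m + 1 → B.I (l ::ₘ l ::ₘ l ::ₘ s) = 0)
    (hllv : ∀ s, card s = m + 1 → B.I (l ::ₘ l ::ₘ v ::ₘ s) = 0)
    (haa : 0 < B.I (l ::ₘ l ::ₘ replicate (m + 2) a)) :
    (∀ s, card s = m + 1 → B.I (v ::ₘ v ::ₘ l ::ₘ s) = 0) ∧
      ∃ k, 0 ≤ k ∧ ∀ s, card s = m + 2 → B.I (v ::ₘ l ::ₘ s) = k * B.I (l ::ₘ l ::ₘ s) := by
  have key : ∀ t : Multiset B.V, (∀ x ∈ t, x ∈ Big B a) → card t = m + 1 →
      B.I (v ::ₘ v ::ₘ l ::ₘ t) = 0 ∧ ∀ y, B.I (v ::ₘ l ::ₘ y ::ₘ t) * B.I (l ::ₘ l ::ₘ a ::ₘ t) =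
        B.I (v ::ₘ l ::ₘ a ::ₘ t) * B.I (l ::ₘ l ::ₘ y ::ₘ t) := by
    intro t ht hc
    have F := lor (B := B) (s := l ::ₘ t) (nef_cons hl fun x hx => big_nef ha (ht x hx))
    have h1 : B.I (l ::ₘ l ::ₘ l ::ₘ t) = 0 := hlll t hc
    have h2 : B.I (l ::ₘ v ::ₘ l ::ₘ t) = 0 := by
      rw [cons_swap v l]
      exact hllv t hc
    have h3 : 0 < B.I (l ::ₘ a ::ₘ l ::ₘ t) := by
      rw [cons_swap a l]
      exact pos_big' hl ha haa (t := a ::ₘ t) (by
        intro x hx
        rcases mem_cons.1 hx with rfl | hx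
        · exact big_self _
        · exact ht x hx) (by rw [card_cons, hc])
    obtain ⟨h4, h5⟩ := F.isotropic hl hv ha h1 h2 h3
    refine ⟨h4, fun y => ?_⟩
    have h6 := h5 y
    beta_reduce at h6
    rw [cons_swap y l, cons_swap a l] at h6
    exact h6
  refine ⟨fun s hs => ?_, B.I (v ::ₘ l ::ₘ replicate (m + 2) a) /
    B.I (l ::ₘ l ::ₘ replicate (m + 2) a), ?_, fun s hs => ?_⟩
  · refine ext0 (f := fun s => B.I (v ::ₘ v ::ₘ l ::ₘ s)) (S := Big B a) ?_ (big_gen a)
      (fun t ht hc => (key t ht hc).1) s hs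
    intro x y s
    simp only [cons_swap l (_ - _), cons_swap l x, cons_swap l y, cons_swap v (_ - _),
      cons_swap v x, cons_swap v y, I_sub]
  · refine div_nonneg (B.nonneg _ (nef_cons hv (nef_cons hl (nef_rep ha _)))) haa.le
  · refine glue (f := fun s => B.I (v ::ₘ l ::ₘ s)) (g := fun s => B.I (l ::ₘ l ::ₘ s))
      (S := Big B a) ?_ ?_ (big_self a) (big_gen a) (N := m + 2) ?_ ?_ ?_ s hs
    · intro x y s
      simp only [cons_swap l (_ - _), cons_swap l x, cons_swap l y, cons_swap v (_ - _),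
        cons_swap v x, cons_swap v y, I_sub]
    · intro x y s
      simp only [cons_swap l (_ - _), cons_swap l x, cons_swap l y, I_sub]
    · beta_reduce
      field_simp
    · intro t ht hc
      exact pos_big' hl ha haa (t := a ::ₘ t) (by
        intro x hx
        rcases mem_cons.1 hx with rfl | hx
        · exact big_self _
        · exact ht x hx) (by rw [card_cons]; omega)
    · intro t ht hc y _
      exact (key t ht (by omega)).2 y

/-- In addition `v l` is not zero: `v^3 = 0`, and `v^2` is a multiple of `l^2`. -/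
theorem mul_m {l v a : B.V} (hl : B.Nef l) (hv : B.Nef v) (ha : B.Nef a)
    (hllv : ∀ s, card s = m + 1 → B.I (l ::ₘ l ::ₘ v ::ₘ s) = 0)
    (haa : 0 < B.I (l ::ₘ l ::ₘ replicate (m + 2) a))
    (hvvl : ∀ s, card s = m + 1 → B.I (v ::ₘ v ::ₘ l ::ₘ s) = 0) {k : ℝ} (hk : 0 < k)
    (hvl : ∀ s, card s = m + 2 → B.I (v ::ₘ l ::ₘ s) = k * B.I (l ::ₘ l ::ₘ s)) :
    (∀ s, card s = m + 1 → B.I (v ::ₘ v ::ₘ v ::ₘ s) = 0) ∧
      ∃ K, ∀ s, card s = m + 2 → B.I (v ::ₘ v ::ₘ s) = K * B.I (l ::ₘ l ::ₘ s) := by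
  have hpos : ∀ t : Multiset B.V, (∀ x ∈ t, x ∈ Big B a) → card t = m + 1 →
      0 < B.I (l ::ₘ l ::ₘ a ::ₘ t) := fun t ht hc =>
    pos_big' hl ha haa (t := a ::ₘ t) (by
      intro x hx
      rcases mem_cons.1 hx with rfl | hx
      · exact big_self _
      · exact ht x hx) (by rw [card_cons, hc])
  have key : ∀ t : Multiset B.V, (∀ x ∈ t, x ∈ Big B a) → card t = m + 1 →
      B.I (v ::ₘ v ::ₘ v ::ₘ t) = 0 ∧ ∀ y, B.I (v ::ₘ v ::ₘ y ::ₘ t) * B.I (l ::ₘ l ::ₘ a ::ₘ t) =
        B.I (v ::ₘ v ::ₘ a ::ₘ t) * B.I (l ::ₘ l ::ₘ y ::ₘ t) := by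
    intro t ht hc
    have F := lor (B := B) (s := v ::ₘ t) (nef_cons hv fun x hx => big_nef ha (ht x hx))
    have h1 : B.I (l ::ₘ l ::ₘ v ::ₘ t) = 0 := hllv t hc
    have h2 : B.I (l ::ₘ v ::ₘ v ::ₘ t) = 0 := by
      rw [cons_swap l v, cons_swap l v]
      exact hvvl t hc
    have e : ∀ y, B.I (l ::ₘ y ::ₘ v ::ₘ t) = k * B.I (l ::ₘ l ::ₘ y ::ₘ t) := by
      intro y
      rw [cons_swap y v, cons_swap l v, hvl _ (by rw [card_cons, hc])]
    have h3 : 0 < B.I (l ::ₘ a ::ₘ v ::ₘ t) := by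
      rw [e]
      exact mul_pos hk (hpos t ht hc)
    obtain ⟨h4, h5⟩ := F.isotropic hl hv ha h1 h2 h3
    refine ⟨h4, fun y => ?_⟩
    have h6 := h5 y
    beta_reduce at h6
    rw [e, e, cons_swap y v, cons_swap a v] at h6
    have : k * (B.I (v ::ₘ v ::ₘ y ::ₘ t) * B.I (l ::ₘ l ::ₘ a ::ₘ t)) =
        k * (B.I (v ::ₘ v ::ₘ a ::ₘ t) * B.I (l ::ₘ l ::ₘ y ::ₘ t)) := by linarith
    exact mul_left_cancel₀ hk.ne' this
  refine ⟨fun s hs => ?_, B.I (v ::ₘ v ::ₘ replicate (m + 2) a) /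
    B.I (l ::ₘ l ::ₘ replicate (m + 2) a), fun s hs => ?_⟩
  · refine ext0 (f := fun s => B.I (v ::ₘ v ::ₘ v ::ₘ s)) (S := Big B a) ?_ (big_gen a)
      (fun t ht hc => (key t ht hc).1) s hs
    intro x y s
    simp only [cons_swap v (_ - _), cons_swap v x, cons_swap v y, I_sub]
  · refine glue (f := fun s => B.I (v ::ₘ v ::ₘ s)) (g := fun s => B.I (l ::ₘ l ::ₘ s))
      (S := Big B a) ?_ ?_ (big_self a) (big_gen a) (N := m + 2) ?_ ?_ ?_ s hs
    · intro x y s
      simp only [cons_swap v (_ - _), cons_swap v x, cons_swap v y, I_sub]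
    · intro x y s
      simp only [cons_swap l (_ - _), cons_swap l x, cons_swap l y, I_sub]
    · beta_reduce
      field_simp
    · intro t ht hc
      exact hpos t ht (by omega)
    · intro t ht hc y _
      exact (key t ht (by omega)).2 y

/-- A nef class `v` with `v l = 0`, `l^2` not zero, is numerically trivial. -/
theorem zero_all {l v a : B.V} (hl : B.Nef l) (hv : B.Nef v) (ha : B.Nef a)
    (haa : 0 < B.I (l ::ₘ l ::ₘ replicate (m + 2) a))
    (hvl : ∀ s, card s = m + 2 → B.I (v ::ₘ l ::ₘ s) = 0) (s : Multiset B.V)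
    (hs : card s = m + 3) : B.I (v ::ₘ s) = 0 := by
  refine ext0 (f := fun s => B.I (v ::ₘ s)) (S := Big B a) ?_ (big_gen a) ?_ s hs
  · intro x y s
    simp only [cons_swap v (_ - _), cons_swap v x, cons_swap v y, I_sub]
  · intro t ht hc
    obtain ⟨y, hy⟩ := card_pos_iff_exists_mem.1 (show 0 < card t by omega)
    obtain ⟨t', rfl⟩ := exists_cons_of_mem hy
    rw [card_cons] at hc
    have ht' : ∀ x ∈ t', x ∈ Big B a := fun x hx => ht x (mem_cons_of_mem hx)
    have F := lor (B := B) (s := t') fun x hx => big_nef ha (ht' x hx)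
    have h1 : 0 < B.I (l ::ₘ l ::ₘ t') := pos_big' hl ha haa ht' (by omega)
    have h2 : B.I (l ::ₘ v ::ₘ t') = 0 := by
      rw [cons_swap]
      exact hvl t' (by omega)
    have h3 : B.I (v ::ₘ v ::ₘ t') = 0 :=
      le_antisymm (F.index l hl v h1 h2) (B.nonneg _ (nef_cons hv (nef_cons hv
        fun x hx => big_nef ha (ht' x hx))))
    exact F.ker_of hl h1 h2 h3 y

/-- The square of a nef class `v` with `l^2 v = 0`. -/
theorem sq {l v a : B.V} (hl : B.Nef l) (hv : B.Nef v) (ha : B.Nef a)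
    (hlll : ∀ s, card s = m + 1 → B.I (l ::ₘ l ::ₘ l ::ₘ s) = 0)
    (hllv : ∀ s, card s = m + 1 → B.I (l ::ₘ l ::ₘ v ::ₘ s) = 0)
    (haa : 0 < B.I (l ::ₘ l ::ₘ replicate (m + 2) a)) :
    (∀ s, card s = m + 1 → B.I (v ::ₘ v ::ₘ v ::ₘ s) = 0) ∧
      (∀ s, card s = m + 1 → B.I (v ::ₘ v ::ₘ l ::ₘ s) = 0) ∧
      ∃ K, ∀ s, card s = m + 2 → B.I (v ::ₘ v ::ₘ s) = K * B.I (l ::ₘ l ::ₘ s) := by
  obtain ⟨h1, k, hk, h2⟩ := mul_l hl hv ha hlll hllv haa
  rcases hk.lt_or_eq with h | h
  · obtain ⟨h3, K, h4⟩ := mul_m hl hv ha hllv haa h1 h h2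
    exact ⟨h3, h1, K, h4⟩
  · have h5 : ∀ s, card s = m + 2 → B.I (v ::ₘ l ::ₘ s) = 0 := by
      intro s hs
      rw [h2 s hs, ← h, zero_mul]
    have h6 := zero_all hl hv ha haa h5
    exact ⟨fun s hs => h6 _ (by rw [card_cons, card_cons, hs]), h1, 0, fun s hs => by
      rw [h6 _ (by rw [card_cons, hs]), zero_mul]⟩

/-- Products of two such classes. -/
theorem prod' {l v w a : B.V} (hl : B.Nef l) (hv : B.Nef v) (hw : B.Nef w) (ha : B.Nef a)
    (hlll : ∀ s, card s = m + 1 → B.I (l ::ₘ l ::ₘ l ::ₘ s) = 0)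
    (hllv : ∀ s, card s = m + 1 → B.I (l ::ₘ l ::ₘ v ::ₘ s) = 0)
    (hllw : ∀ s, card s = m + 1 → B.I (l ::ₘ l ::ₘ w ::ₘ s) = 0)
    (haa : 0 < B.I (l ::ₘ l ::ₘ replicate (m + 2) a)) (s : Multiset B.V) (hs : card s = m + 2) :
    B.I (v ::ₘ w ::ₘ s) * B.I (l ::ₘ l ::ₘ replicate (m + 2) a) =
      B.I (v ::ₘ w ::ₘ replicate (m + 2) a) * B.I (l ::ₘ l ::ₘ s) := by
  obtain ⟨-, -, k1, h1⟩ := sq hl hv ha hlll hllv haa
  obtain ⟨-, -, k2, h2⟩ := sq hl hw ha hlll hllw haa
  obtain ⟨-, -, k3, h3⟩ := sq hl (B.nef_add v w hv hw) ha hlll (fun s hs => by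
    rw [cons_swap l (v + w), cons_swap l (v + w), I_add, cons_swap v l, cons_swap v l,
      cons_swap w l, cons_swap w l, hllv s hs, hllw s hs, add_zero]) haa
  have e : ∀ s, B.I ((v + w) ::ₘ (v + w) ::ₘ s) =
      B.I (v ::ₘ v ::ₘ s) + 2 * B.I (v ::ₘ w ::ₘ s) + B.I (w ::ₘ w ::ₘ s) := by
    intro s
    rw [I_add, cons_swap v (v + w), cons_swap w (v + w), I_add, I_add, cons_swap w v]
    ring
  have h4 : ∀ s, card s = m + 2 → 2 * B.I (v ::ₘ w ::ₘ s) =
      (k3 - k1 - k2) * B.I (l ::ₘ l ::ₘ s) := by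
    intro s hs
    have := e s
    rw [h1 s hs, h2 s hs, h3 s hs] at this
    linarith
  have e1 := h4 s hs
  have e2 := h4 (replicate (m + 2) a) (card_replicate _ _)
  have : 2 * (B.I (v ::ₘ w ::ₘ s) * B.I (l ::ₘ l ::ₘ replicate (m + 2) a)) =
      2 * (B.I (v ::ₘ w ::ₘ replicate (m + 2) a) * B.I (l ::ₘ l ::ₘ s)) := by
    calc 2 * (B.I (v ::ₘ w ::ₘ s) * B.I (l ::ₘ l ::ₘ replicate (m + 2) a))
        = (2 * B.I (v ::ₘ w ::ₘ s)) * B.I (l ::ₘ l ::ₘ replicate (m + 2) a) := by ring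
      _ = (2 * B.I (v ::ₘ w ::ₘ replicate (m + 2) a)) * B.I (l ::ₘ l ::ₘ s) := by
          rw [e1, e2]; ring
      _ = _ := by ring
  linarith

theorem I_rep (e : ℝ) (a : B.V) (j : ℕ) : ∀ s : Multiset B.V,
    B.I (replicate j (e • a) + s) = e ^ j * B.I (replicate j a + s) := by
  induction j with
  | zero => intro s; simp
  | succ j ih =>
    intro s
    rw [replicate_succ, cons_add, I_smul, ← add_cons, ih, add_cons, replicate_succ, cons_add,
      pow_succ]
    ring

/-- Siu's number for `(1 + u) v + e a` and `u l`. -/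
theorem siu_num {l v a : B.V} {k K u : ℝ} (hu : 0 < u) (hK : 2 * u * k < (1 + u) * K)
    (haa : 0 < B.I (l ::ₘ l ::ₘ replicate (m + 2) a))
    (hvvv : ∀ s, card s = m + 1 → B.I (v ::ₘ v ::ₘ v ::ₘ s) = 0)
    (hvvl : ∀ s, card s = m + 1 → B.I (v ::ₘ v ::ₘ l ::ₘ s) = 0)
    (hvv : B.I (v ::ₘ v ::ₘ replicate (m + 2) a) = K * B.I (l ::ₘ l ::ₘ replicate (m + 2) a))
    (hvl : B.I (v ::ₘ l ::ₘ replicate (m + 2) a) = k * B.I (l ::ₘ l ::ₘ replicate (m + 2) a)) :
    ∀ t : ℝ, 0 < t → ∃ e, 0 < e ∧ e < t ∧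
      (m + 4) * B.I ((u • l) ::ₘ replicate (m + 3) ((1 + u) • v + e • a)) <
        B.I (replicate (m + 4) ((1 + u) • v + e • a)) := by
  intro t ht
  set W := B.I (l ::ₘ l ::ₘ replicate (m + 2) a) with hW
  set q0 := B.I (l ::ₘ replicate (m + 3) a) with hq0
  set q3 := B.I (v ::ₘ replicate (m + 3) a) with hq3
  set q4 := B.I (replicate (m + 4) a) with hq4
  have hright : ∀ e : ℝ, B.I (replicate (m + 4) ((1 + u) • v + e • a)) =
      e ^ (m + 4) * q4 + (m + 4) * ((1 + u) * (e ^ (m + 3) * q3)) +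
        (m + 4) * (m + 3) / 2 * ((1 + u) ^ 2 * (e ^ (m + 2) * (K * W))) := by
    intro e
    have h := binom (f := B.I) I_add (x := (1 + u) • v) (z := e • a) (M := m + 4) (by
      intro t ht
      rw [I_smul, cons_swap, I_smul, cons_swap _ ((1 + u) • v), cons_swap _ ((1 + u) • v), I_smul,
        cons_swap, hvvv t (by omega)]
      ring) (m + 4) 0 (by simp)
    have c1 : m + 4 - 1 = m + 3 := by omega
    have c2 : m + 4 - 2 = m + 2 := by omega
    rw [add_zero, add_zero, c1, c2, add_zero, add_zero] at h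
    have r0 := I_rep (B := B) e a (m + 4) 0
    have r1 := I_rep (B := B) e a (m + 3) {v}
    have r2 := I_rep (B := B) e a (m + 2) {v, v}
    have s1 : ∀ (j : ℕ) (b : B.V), replicate j b + {v} = v ::ₘ replicate j b := by
      intro j b
      rw [add_comm, singleton_add]
    have s2 : ∀ (j : ℕ) (b : B.V), replicate j b + {v, v} = v ::ₘ v ::ₘ replicate j b := by
      intro j b
      rw [add_comm, insert_eq_cons, cons_add, singleton_add]
    rw [add_zero, add_zero] at r0
    rw [s1, s1] at r1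
    rw [s2, s2] at r2
    rw [h, r0, I_smul, r1, I_smul, cons_swap, I_smul, r2, hvv]
    push_cast
    ring
  have hleft : ∀ e : ℝ, B.I ((u • l) ::ₘ replicate (m + 3) ((1 + u) • v + e • a)) =
      u * (e ^ (m + 3) * q0 + (m + 3) * ((1 + u) * (e ^ (m + 2) * (k * W)))) := by
    intro e
    have h := binom (f := fun s => B.I (l ::ₘ s)) (x := (1 + u) • v) (z := e • a) (M := m + 3) (by
      intro x y s
      rw [cons_swap, I_add, cons_swap, cons_swap y]) (by
      intro t ht
      beta_reduce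
      rw [cons_swap l ((1 + u) • v), I_smul, cons_swap l ((1 + u) • v), cons_swap v ((1 + u) • v),
        I_smul, hvvl _ (by rw [card_cons]; omega)]
      ring) (m + 3) 0 (by simp)
    have c1 : m + 3 - 1 = m + 2 := by omega
    have c2 : m + 3 - 2 = m + 1 := by omega
    beta_reduce at h
    rw [add_zero, add_zero, c1, c2, add_zero, add_zero] at h
    have r0 := I_rep (B := B) e a (m + 3) {l}
    have r1 := I_rep (B := B) e a (m + 2) {l, v}
    have s1 : ∀ (j : ℕ) (b : B.V), replicate j b + {l} = l ::ₘ replicate j b := by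
      intro j b
      rw [add_comm, singleton_add]
    have s2 : ∀ (j : ℕ) (b : B.V), replicate j b + {l, v} = l ::ₘ v ::ₘ replicate j b := by
      intro j b
      rw [add_comm, insert_eq_cons, cons_add, singleton_add]
    rw [s1, s1] at r0
    rw [s2, s2] at r1
    have z : B.I (l ::ₘ (1 + u) • v ::ₘ (1 + u) • v ::ₘ replicate (m + 1) (e • a)) = 0 := by
      rw [cons_swap l ((1 + u) • v), I_smul, cons_swap l ((1 + u) • v), cons_swap v ((1 + u) • v),
        I_smul, hvvl _ (card_replicate _ _)]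
      ring
    have z1 : B.I (l ::ₘ (1 + u) • v ::ₘ replicate (m + 2) (e • a)) =
        (1 + u) * (e ^ (m + 2) * (k * W)) := by
      rw [cons_swap, I_smul, cons_swap, r1, cons_swap, hvl]
    rw [I_smul, h, z, z1, r0]
    push_cast
    ring
  -- choose `e`
  set d := (m + 4) * (m + 3) / 2 * (1 + u) * W * ((1 + u) * K - 2 * u * k) with hd
  have hm0 : (0 : ℝ) ≤ m := Nat.cast_nonneg m
  have hdpos : 0 < d := by
    have : 0 < (1 + u) * K - 2 * u * k := by linarith
    positivity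
  set c1 := (m + 4) * (1 + u) * q3 - (m + 4) * u * q0 with hc1
  set M := |c1| + |q4| + 1 with hM
  have hMpos : 0 < M := by positivity
  obtain ⟨e, he0, he1, he2, he3⟩ : ∃ e : ℝ, 0 < e ∧ e < t ∧ e < 1 ∧ e * M < d := by
    refine ⟨min (min (t / 2) (1 / 2)) (d / (2 * M)), by positivity, ?_, ?_, ?_⟩
    · exact lt_of_le_of_lt (le_trans (min_le_left _ _) (min_le_left _ _)) (by linarith)
    · exact lt_of_le_of_lt (le_trans (min_le_left _ _) (min_le_right _ _)) (by norm_num)
    · have h1 : min (min (t / 2) (1 / 2)) (d / (2 * M)) * M ≤ d / (2 * M) * M :=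
        mul_le_mul_of_nonneg_right (min_le_right _ _) hMpos.le
      have h2 : d / (2 * M) * M = d / 2 := by field_simp
      linarith
  refine ⟨e, he0, he1, ?_⟩
  rw [hleft, hright]
  have h1 : e ^ (m + 4) * q4 + (m + 4) * ((1 + u) * (e ^ (m + 3) * q3)) +
        (m + 4) * (m + 3) / 2 * ((1 + u) ^ 2 * (e ^ (m + 2) * (K * W))) -
      (m + 4) * (u * (e ^ (m + 3) * q0 + (m + 3) * ((1 + u) * (e ^ (m + 2) * (k * W))))) =
      e ^ (m + 2) * (d + e * (c1 + e * q4)) := by
    rw [hd, hc1, pow_add e m 4, pow_add e m 3, pow_add e m 2]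
    ring
  have h2 : -(e * M) ≤ e * (c1 + e * q4) := by
    have h3 := neg_abs_le c1
    have h4 := neg_abs_le q4
    have h5 : -|q4| ≤ e * q4 := by
      have h6 := abs_nonneg q4
      nlinarith
    have h6 : -M ≤ c1 + e * q4 := by linarith
    nlinarith
  have h3 : 0 < e ^ (m + 2) * (d + e * (c1 + e * q4)) := by
    have : 0 < d + e * (c1 + e * q4) := by linarith
    positivity
  linarith

end Pool.Agent.H88.XN
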