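import Pool.Agent.H81.XN.Spec
import Pool.Agent.H88.XN.Num

/-!
# Extremal b-nef classes of numerical dimension two (MP_5ee2d0_ag)

The dimension of `X` is `n = m + 4`.
-/

namespace Pool.Agent.H88.XN

open Pool.Agent.H54.XN Pool.Agent.H81.XN Pool.Agent.H72.FB4 Multiset

variable {r m : ℕ} {B : BCl r m} {L : Fin r → ℝ}

theorem o_sub (a b : B.V) (E : B.D) : B.o (a - b) E = B.o a E - B.o b E :=
  congrFun ((IsLinearMap.mk' _ B.o_lin).map_sub a b) E

theorem o_add (a b : B.V) (E : B.D) : B.o (a + b) E = B.o a E + B.o b E :=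
  congrFun ((IsLinearMap.mk' _ B.o_lin).map_add a b) E

theorem o_smul (t : ℝ) (a : B.V) (E : B.D) : B.o (t • a) E = t * B.o a E :=
  congrFun ((IsLinearMap.mk' _ B.o_lin).map_smul t a) E

theorem o_pb' (x : Fin r → ℝ) (E : B.D) : B.o (B.pb x) E = 0 := by
  rw [B.o_pb]; rfl

theorem o_zero (E : B.D) : B.o (0 : B.V) E = 0 :=
  congrFun (IsLinearMap.mk' _ B.o_lin).map_zero E

theorem tr_sub (a b : B.V) : B.tr (a - b) = B.tr a - B.tr b :=
  (IsLinearMap.mk' _ B.tr_lin).map_sub a b

theorem tr_add (a b : B.V) : B.tr (a + b) = B.tr a + B.tr b :=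
  (IsLinearMap.mk' _ B.tr_lin).map_add a b

theorem tr_smul (t : ℝ) (a : B.V) : B.tr (t • a) = t • B.tr a :=
  (IsLinearMap.mk' _ B.tr_lin).map_smul t a

theorem tr_zero : B.tr (0 : B.V) = 0 := (IsLinearMap.mk' _ B.tr_lin).map_zero

theorem AA_symm (a b : B.V) : AA B a b = AA B b a := by
  unfold AA
  rw [cons_swap]

theorem AA_add (a a' b : B.V) : AA B (a + a') b = AA B a b + AA B a' b := I_add _ _ _

theorem AA_sub (a a' b : B.V) : AA B (a - a') b = AA B a b - AA B a' b := I_sub _ _ _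

theorem AA_smul (t : ℝ) (a b : B.V) : AA B (t • a) b = t * AA B a b := I_smul _ _ _

theorem AA_nonneg {a b : B.V} (ha : B.Nef a) (hb : B.Nef b) : 0 ≤ AA B a b :=
  B.nonneg _ (nef_cons ha (nef_cons hb (nef_rep B.nef_A _)))

theorem good_L (h : Two B L) : Good B L (B.pb L) :=
  ⟨h.nef, B.tr_pb L, fun E => by rw [o_pb']⟩

theorem good_conv {v w : B.V} (hv : Good B L v) (hw : Good B L w) {t : ℝ} (h0 : 0 ≤ t)
    (h1 : t ≤ 1) : Good B L (t • v + (1 - t) • w) := by
  have h1' : 0 ≤ 1 - t := by linarith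
  refine ⟨B.nef_add _ _ (B.nef_smul _ _ h0 hv.1) (B.nef_smul _ _ h1' hw.1), ?_, fun E => ?_⟩
  · rw [tr_add, tr_smul, tr_smul, hv.2.1, hw.2.1, ← add_smul]
    rw [add_sub_cancel, one_smul]
  · rw [o_add, o_smul, o_smul]
    exact add_nonneg (mul_nonneg h0 (hv.2.2 E)) (mul_nonneg h1' (hw.2.2 E))

/-- A smaller b-divisor gives a larger class. -/
theorem mono {v w : B.V} (htr : B.tr v = B.tr w) (h : ∀ E, B.o v E ≤ B.o w E) {s : Multiset B.V}
    (hs : ∀ a ∈ s, B.Nef a) : B.I (w ::ₘ s) ≤ B.I (v ::ₘ s) := by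
  have h1 := B.eff (v - w) (by rw [tr_sub, htr, sub_self])
    (fun E => by rw [o_sub]; linarith [h E]) s hs
  rw [I_sub] at h1
  linarith

theorem llv (h : Two B L) {v : B.V} (hv : Good B L v) (s : Multiset B.V) :
    B.I (B.pb L ::ₘ B.pb L ::ₘ v ::ₘ s) = 0 := by
  refine ext0 (f := fun s => B.I (B.pb L ::ₘ B.pb L ::ₘ v ::ₘ s)) (S := Big B (B.pb B.A)) ?_
    (big_gen _) (N := card s) ?_ s rfl
  · intro x y s
    simp only [cons_swap v (_ - _), cons_swap v x, cons_swap v y, cons_swap (B.pb L) (_ - _),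
      cons_swap (B.pb L) x, cons_swap (B.pb L) y, I_sub]
  · intro t ht _
    have hn : ∀ a ∈ t, B.Nef a := fun x hx => big_nef B.nef_A (ht x hx)
    have e : B.I (B.pb L ::ₘ B.pb L ::ₘ v ::ₘ t) = B.I (v ::ₘ B.pb L ::ₘ B.pb L ::ₘ t) := by
      rw [cons_swap (B.pb L) v, cons_swap (B.pb L) v]
    have h1 := mono (B := B) (v := B.pb L) (w := v) (by rw [B.tr_pb, hv.2.1])
      (fun E => by rw [o_pb']; exact hv.2.2 E) (nef_cons h.nef (nef_cons h.nef hn))
    have h2 := B.nonneg _ (nef_cons hv.1 (nef_cons h.nef (nef_cons h.nef hn)))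
    rw [h.cube] at h1
    rw [e]
    linarith

/-- The product of two classes `L - y` is a multiple of `L^2`. -/
theorem prod (h : Two B L) {v w : B.V} (hv : Good B L v) (hw : Good B L w) (s : Multiset B.V) :
    B.I (v ::ₘ w ::ₘ s) * AA B (B.pb L) (B.pb L) = AA B v w * B.I (B.pb L ::ₘ B.pb L ::ₘ s) := by
  by_cases hs : card s = m + 2
  · exact prod' h.nef hv.1 hw.1 B.nef_A (fun s _ => h.cube s) (fun s _ => llv h hv s)
      (fun s _ => llv h hw s) h.pos s hs
  · have e : ∀ a b : B.V, B.I (a ::ₘ b ::ₘ s) = 0 := fun a b => B.I_card _ (by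
      rw [card_cons, card_cons]; omega)
    rw [e, e, zero_mul, mul_zero]

/-- Lemma M: Siu's inequality for `L - (1 + u) y`. -/
theorem lemmaM (B : BCl r m) (L : Fin r → ℝ) : LemmaM B L := by
  intro h v u hv hu hlt
  set W := AA B (B.pb L) (B.pb L) with hW
  have hWp : 0 < W := h.pos
  set k := AA B v (B.pb L) / W with hk
  set K := AA B v v / W with hK
  obtain ⟨hvvv, hvvl, -⟩ := sq h.nef hv.1 B.nef_A (fun s _ => h.cube s) (fun s _ => llv h hv s)
    h.pos
  have hKk : 2 * u * k < (1 + u) * K := by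
    rw [AA_symm] at hlt
    rw [hk, hK, ← mul_div_assoc, ← mul_div_assoc]
    exact div_lt_div_of_pos_right hlt hWp
  have hs := siu_num (l := B.pb L) (v := v) (a := B.pb B.A) hu hKk hWp hvvv hvvl
    (by
      show AA B v v = K * W
      rw [hK, div_mul_cancel₀ _ hWp.ne'])
    (by
      show AA B v (B.pb L) = k * W
      rw [hk, div_mul_cancel₀ _ hWp.ne'])
  have ho' : ∀ E, B.o ((1 + u) • v - u • B.pb L) E = (1 + u) * B.o v E := by
    intro E
    rw [o_sub, o_smul, o_smul, o_pb', mul_zero, sub_zero]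
  have ht' : B.tr ((1 + u) • v - u • B.pb L) = L := by
    rw [tr_sub, tr_smul, tr_smul, B.tr_pb, hv.2.1, ← sub_smul]
    rw [add_sub_cancel_right, one_smul]
  obtain ⟨w, hw, hwtr, hwo⟩ := B.closed ((1 + u) • v - u • B.pb L) (by
    intro t ht
    obtain ⟨e, he0, het, hlt'⟩ := hs t ht
    set F := (1 + u) • v + e • B.pb B.A with hF
    have hFn : B.Nef F := B.nef_add _ _ (B.nef_smul _ _ (by linarith) hv.1)
      (B.nef_smul _ _ he0.le B.nef_A)
    have hFo : ∀ E, B.o F E = (1 + u) * B.o v E := by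
      intro E
      rw [hF, o_add, o_smul, o_smul, o_pb', mul_zero, add_zero]
    have hlo : ∀ E, B.o (u • B.pb L) E = 0 := by
      intro E
      rw [o_smul, o_pb', mul_zero]
    obtain ⟨n, hn, hntr, hno⟩ := B.siu F (u • B.pb L) hFn (B.nef_smul _ _ hu.le h.nef) hlt'
    refine ⟨n + (t - e) • B.pb B.A, B.nef_add _ _ hn (B.nef_smul _ _ (by linarith) B.nef_A), ?_,
      fun E => ?_⟩
    · rw [tr_add, tr_smul, B.tr_pb, hntr, ht', hF, tr_add, tr_smul, tr_smul, tr_smul, B.tr_pb,
        B.tr_pb, hv.2.1]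
      module
    · have e1 := hno E
      rw [hFo, hlo, sub_zero] at e1
      rw [ho', o_add, o_smul, o_pb', mul_zero, add_zero]
      exact e1)
  have hle : ∀ E, (1 + u) * B.o v E ≤ B.o w E := fun E => by
    have := hwo E
    rwa [ho'] at this
  exact ⟨w, ⟨hw, by rw [hwtr, ht'], fun E =>
    le_trans (mul_nonneg (by linarith) (hv.2.2 E)) (hle E)⟩, hle⟩

/-- Two classes `L - y`, `y ≤ z`, with the same intersection numbers are equal. -/
theorem num_eq (h : Two B L) {v w : B.V} (hv : Good B L v) (hw : Good B L w)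
    (hle : ∀ E, B.o v E ≤ B.o w E) (h1 : AA B (B.pb L) v = AA B (B.pb L) w)
    (h2 : 0 ≤ AA B v v - 2 * AA B v w + AA B w w) : v = w := by
  by_contra hne
  obtain ⟨s, hs0⟩ := B.pos (v - w) (by rw [tr_sub, hv.2.1, hw.2.1, sub_self])
    (fun E => by rw [o_sub]; linarith [hle E]) (sub_ne_zero.2 hne)
  obtain ⟨H, hH, hHA, hs⟩ := B.strict (v - w) ⟨s, hs0.ne'⟩
  have hW := h.pos
  set W := AA B (B.pb L) (B.pb L) with hWdef
  set M := replicate (m + 2) H with hM
  have hLHH : 0 < B.I (B.pb L ::ₘ B.pb L ::ₘ M) := by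
    refine pos_big' h.nef B.nef_A h.pos (t := M) (fun x hx => ?_) (card_replicate _ _)
    rw [hM] at hx
    rw [eq_of_mem_replicate hx]
    exact ⟨H - B.pb B.A, hHA, by rw [sub_add_cancel]⟩
  set R := B.I (B.pb L ::ₘ B.pb L ::ₘ M) with hR
  have f : ∀ {p q : B.V}, Good B L p → Good B L q → B.I (p ::ₘ q ::ₘ M) * W = AA B p q * R :=
    fun hp hq => prod h hp hq M
  have h3 : B.I ((v - w) ::ₘ B.pb L ::ₘ M) = 0 := by
    have e1 := f (good_L h) hv
    have e2 := f (good_L h) hw
    have e3 : (B.I (B.pb L ::ₘ v ::ₘ M) - B.I (B.pb L ::ₘ w ::ₘ M)) * W = 0 := by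
      rw [sub_mul, e1, e2, h1, sub_self]
    rcases mul_eq_zero.1 e3 with e | e
    · rw [I_sub, cons_swap v, cons_swap w]
      exact e
    · exact absurd e hW.ne'
  have h4 := hs L h.nef hLHH h3
  rw [I_sub, cons_swap v (v - w), cons_swap w (v - w), I_sub, I_sub, cons_swap w v] at h4
  have e1 := f hv hv
  have e2 := f hv hw
  have e3 := f hw hw
  have h5 : (B.I (v ::ₘ v ::ₘ M) - B.I (v ::ₘ w ::ₘ M) -
      (B.I (v ::ₘ w ::ₘ M) - B.I (w ::ₘ w ::ₘ M))) * W =
      (AA B v v - 2 * AA B v w + AA B w w) * R := by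
    linear_combination e1 - 2 * e2 + e3
  have h6 := mul_neg_of_neg_of_pos h4 hW
  rw [h5] at h6
  have h7 := mul_nonneg h2 hLHH.le
  linarith

/-- The extremal class `P`: `P^2 = 0`, `P` is the smallest one above its coefficients in `S`. -/
theorem extCore (B : BCl r m) (L : Fin r → ℝ) : ExtCore B L := by
  intro h P S th hP hpos hmax hsup hlin hsame
  set l := B.pb L with hl
  set a := B.pb B.A with ha
  set W := AA B l l with hW
  have hWp : 0 < W := h.pos
  have hgl : Good B L l := good_L h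
  have hgn : ∀ {v w : B.V}, Good B L v → Good B L w → 0 ≤ AA B v w := fun hv hw =>
    AA_nonneg hv.1 hw.1
  have hmono : ∀ {v w x : B.V}, Good B L v → Good B L w → Good B L x →
      (∀ E, B.o v E ≤ B.o w E) → AA B w x ≤ AA B v x := fun hv hw hx hle =>
    mono (by rw [hv.2.1, hw.2.1]) hle (nef_cons hx.1 (nef_rep B.nef_A _))
  -- the bound from Siu's inequality
  have bound : ∀ x, Good B L x → ∀ t : ℝ, 0 < t → t ≤ 1 → t * th P ≤ th x →
      AA B x x ≤ 2 * (1 - t) * AA B l x := by
    intro x hx t h0 h1 hth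
    by_contra hcon
    push Not at hcon
    have hr := hgn hgl hx
    have hq := hgn hx hx
    obtain ⟨u, hu1, hu2⟩ : ∃ u : ℝ, 1 < t * (1 + u) ∧
        2 * u * AA B l x < (1 + u) * AA B x x := by
      set d := AA B x x - 2 * (1 - t) * AA B l x with hd
      have hdpos : 0 < d := by linarith
      obtain ⟨e, he0, he⟩ : ∃ e : ℝ, 0 < e ∧ 2 * e * AA B l x < d := by
        refine ⟨d / (2 * (2 * AA B l x + 1)), by positivity, ?_⟩
        have h2 : 0 < 2 * AA B l x + 1 := by linarith
        have h3 : 2 * (d / (2 * (2 * AA B l x + 1))) * AA B l x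
            = d * (AA B l x / (2 * AA B l x + 1)) := by field_simp
        have h4 : AA B l x / (2 * AA B l x + 1) < 1 := by rw [div_lt_one h2]; linarith
        rw [h3]
        nlinarith
      refine ⟨(1 + e) / t - 1, ?_, ?_⟩
      · have : t * (1 + ((1 + e) / t - 1)) = 1 + e := by field_simp; ring
        rw [this]
        linarith
      · have h5 : 2 * ((1 + e) / t - 1) * AA B l x = 2 * (1 + e - t) * AA B l x / t := by
          field_simp
        have h6 : (1 + ((1 + e) / t - 1)) * AA B x x = (1 + e) * AA B x x / t := by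
          field_simp; ring
        rw [h5, h6, div_lt_div_iff_of_pos_right h0]
        nlinarith
    have hu0 : 0 < u := by
      by_contra hc
      push Not at hc
      nlinarith
    obtain ⟨z, hz, hle⟩ := lemmaM B L h x u hx hu0 hu2
    have h3 := hsup x z (1 + u) hx hz (by linarith) hle
    have h4 := hmax z hz
    have h5 : (1 + u) * (t * th P) ≤ (1 + u) * th x := mul_le_mul_of_nonneg_left hth (by linarith)
    nlinarith
  have hBB : AA B P P = 0 := by
    refine le_antisymm ?_ (hgn hP hP)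
    have := bound P hP 1 one_pos le_rfl (by rw [one_mul])
    linarith
  have hPP : ∀ s, B.I (P ::ₘ P ::ₘ s) = 0 := by
    intro s
    have := prod h hP hP s
    rw [← hl, hBB, ← hW, zero_mul] at this
    rcases mul_eq_zero.1 this with e | e
    · exact e
    · exact absurd e hWp.ne'
  -- the least elements
  have hleast : ∀ t : ℝ, 0 ≤ t → t ≤ 1 → ∃ x, Good B L x ∧ (∀ E ∈ S, t * B.o P E ≤ B.o x E) ∧
      ∀ z, Good B L z → (∀ E ∈ S, t * B.o P E ≤ B.o z E) → ∀ E, B.o x E ≤ B.o z E := by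
    intro t h0 h1
    classical
    set g : B.D → ℝ := fun E => if E ∈ S then t * B.o P E else 0 with hg
    have hgz : ∀ z, Good B L z → (∀ E ∈ S, t * B.o P E ≤ B.o z E) → ∀ E, g E ≤ B.o z E := by
      intro z hz hzS E
      rw [hg]
      by_cases hE : E ∈ S
      · simp only [hE, if_true]
        exact hzS E hE
      · simp only [hE, if_false]
        exact hz.2.2 E
    have htP := good_conv hP hgl h0 h1
    obtain ⟨x, hx, hxtr, hxo, hxg, -, hxle⟩ := B.least L g ⟨t • P + (1 - t) • l, htP.1, htP.2.1,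
      htP.2.2, hgz _ htP (fun E _ => by
        rw [o_add, o_smul, o_smul, hl, o_pb', mul_zero, add_zero])⟩
    refine ⟨x, ⟨hx, hxtr, hxo⟩, fun E hE => ?_, fun z hz hzS =>
      hxle z hz.1 hz.2.1 hz.2.2 (hgz z hz hzS)⟩
    have := hxg E
    rw [hg] at this
    simpa only [hE, if_true] using this
  choose! x hxY hxS hxle using hleast
  have htB : ∀ t : ℝ, 0 ≤ t → t ≤ 1 → Good B L (t • P + (1 - t) • l) := fun t h0 h1 =>
    good_conv hP hgl h0 h1
  have htBo : ∀ (t : ℝ) E, B.o (t • P + (1 - t) • l) E = t * B.o P E := by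
    intro t E
    rw [o_add, o_smul, o_smul, hl, o_pb', mul_zero, add_zero]
  have hxB : ∀ t, 0 ≤ t → t ≤ 1 → ∀ E, B.o (x t) E ≤ t * B.o P E := by
    intro t h0 h1 E
    have := hxle t h0 h1 _ (htB t h0 h1) (fun E _ => by rw [htBo]) E
    rwa [htBo] at this
  have hxlin : ∀ t, 0 ≤ t → t ≤ 1 → th (x t) = t * th P ∧
      AA B l (x t) = (1 - t) * W + t * AA B l P := fun t h0 h1 =>
    hlin _ t (hxY t h0 h1) h0 h1 (hxB t h0 h1)
      (fun E hE => le_antisymm (hxB t h0 h1 E) (hxS t h0 h1 E hE))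
  set rho := AA B l P with hrhodef
  have hPl : AA B P l = rho := by rw [hrhodef, AA_symm]
  -- `g t` is the product of `P` and the effective difference
  let g : ℝ → ℝ := fun t => AA B (x t) P - (1 - t) * rho
  have hKtB : ∀ (t : ℝ) w, AA B (t • P + (1 - t) • l) w =
      t * AA B P w + (1 - t) * AA B l w := by
    intro t w
    rw [AA_add, AA_smul, AA_smul]
  have hxmono : ∀ t, 0 ≤ t → t ≤ 1 → ∀ w, Good B L w →
      t * AA B P w + (1 - t) * AA B l w ≤ AA B (x t) w := by
    intro t h0 h1 w hw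
    have := hmono (hxY t h0 h1) (htB t h0 h1) hw (fun E => by rw [htBo]; exact hxB t h0 h1 E)
    rwa [hKtB] at this
  have hg0 : ∀ t, 0 ≤ t → t ≤ 1 → 0 ≤ g t := by
    intro t h0 h1
    have h2 := hxmono t h0 h1 P hP
    rw [hBB, mul_zero, zero_add] at h2
    show 0 ≤ AA B (x t) P - (1 - t) * rho
    linarith
  have hx2 : ∀ t, 0 ≤ t → t ≤ 1 → (1 - t) * ((1 - t) * W + t * rho) + t * AA B (x t) P ≤
      AA B (x t) (x t) := by
    intro t h0 h1
    have h2 := hxmono t h0 h1 (x t) (hxY t h0 h1)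
    rw [(hxlin t h0 h1).2, AA_symm P] at h2
    linarith
  have hgb : ∀ t, 0 < t → t ≤ 1 → t * g t ≤ (1 - t) ^ 2 * W := by
    intro t h0 h1
    have h2 := bound (x t) (hxY t h0.le h1) t h0 h1 (hxlin t h0.le h1).1.ge
    rw [(hxlin t h0.le h1).2] at h2
    have h3 := hx2 t h0.le h1
    show t * (AA B (x t) P - (1 - t) * rho) ≤ (1 - t) ^ 2 * W
    nlinarith
  have hzero : ∀ s, 0 ≤ s → s < 1 → g s ≤ 0 := by
    intro s h0 h1
    by_contra hcon
    push Not at hcon
    have key : ∀ s', s ≤ s' → s' < 1 → 0 < s' → g s * s' ≤ (1 - s) * (1 - s') * W := by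
      intro s' hss h1' h0'
      have h1s : 0 < 1 - s := by linarith
      set c := (1 - s') / (1 - s) with hc
      have hc0 : 0 ≤ c := div_nonneg (by linarith) h1s.le
      have hc1 : c ≤ 1 := by rw [hc, div_le_one h1s]; linarith
      have hcs : c * (1 - s) = 1 - s' := by rw [hc]; field_simp
      have hcv := good_conv (hxY s h0 h1.le) hP hc0 hc1
      have hcE : ∀ E ∈ S, s' * B.o P E ≤ B.o (c • x s + (1 - c) • P) E := by
        intro E hE
        have h2 := hxS s h0 h1.le E hE
        have h3 : c * (s * B.o P E) ≤ c * B.o (x s) E := mul_le_mul_of_nonneg_left h2 hc0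
        have h4 : s' = c * s + (1 - c) := by linarith
        have h5 : s' * B.o P E = c * (s * B.o P E) + (1 - c) * B.o P E := by
          conv_lhs => rw [h4]
          ring
        rw [o_add, o_smul, o_smul]
        linarith
      have hle := hxle s' h0'.le h1'.le _ hcv hcE
      have h6 := hmono (hxY s' h0'.le h1'.le) hcv hP hle
      rw [AA_add, AA_smul, AA_smul, hBB, mul_zero, add_zero] at h6
      have h7 : c * g s ≤ g s' := by
        show c * (AA B (x s) P - (1 - s) * rho) ≤ AA B (x s') P - (1 - s') * rho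
        rw [← hcs]
        linarith
      have h8 := hgb s' h0' h1'.le
      have h9 : s' * (c * g s) ≤ (1 - s') ^ 2 * W :=
        le_trans (mul_le_mul_of_nonneg_left h7 h0'.le) h8
      have h11 : g s * s' * (1 - s') ≤ (1 - s) * (1 - s') * W * (1 - s') := by
        have e1 : g s * s' * (1 - s') = (1 - s) * (s' * (c * g s)) := by rw [← hcs]; ring
        have e2 : (1 - s) * (1 - s') * W * (1 - s') = (1 - s) * ((1 - s') ^ 2 * W) := by ring
        rw [e1, e2]
        exact mul_le_mul_of_nonneg_left h9 h1s.le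
      exact le_of_mul_le_mul_right h11 (by linarith)
    obtain ⟨s', hs1, hs2, hs3, hs4⟩ : ∃ s', s ≤ s' ∧ s' < 1 ∧ 1 / 2 ≤ s' ∧
        (1 - s) * (1 - s') * W < g s / 2 := by
      refine ⟨max (max s (1 / 2)) (1 - g s / (4 * W)), le_trans (le_max_left _ _) (le_max_left _ _),
        ?_, le_trans (le_max_right _ _) (le_max_left _ _), ?_⟩
      · rw [max_lt_iff, max_lt_iff]
        have : 0 < g s / (4 * W) := by positivity
        exact ⟨⟨h1, by norm_num⟩, by linarith⟩
      · set m := max (max s (1 / 2)) (1 - g s / (4 * W)) with hm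
        have h2 : 1 - g s / (4 * W) ≤ m := le_max_right _ _
        have h3 : 1 - m ≤ g s / (4 * W) := by linarith
        have hm1 : m ≤ 1 := by
          rw [hm, max_le_iff, max_le_iff]
          have : 0 < g s / (4 * W) := by positivity
          exact ⟨⟨h1.le, by norm_num⟩, by linarith⟩
        have h4 : (1 - s) * (1 - m) ≤ 1 * (g s / (4 * W)) := by
          refine mul_le_mul (by linarith) h3 (by linarith) zero_le_one
        have h5 : (1 - s) * (1 - m) * W ≤ 1 * (g s / (4 * W)) * W :=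
          mul_le_mul_of_nonneg_right h4 hWp.le
        have h6 : 1 * (g s / (4 * W)) * W = g s / 4 := by field_simp
        linarith
    have := key s' hs1 hs2 (by linarith)
    nlinarith
  have hxeq : ∀ s, 0 ≤ s → s < 1 → x s = s • P + (1 - s) • l := by
    intro s h0 h1
    have hg : g s = 0 := le_antisymm (hzero s h0 h1) (hg0 s h0 h1.le)
    have hxBs : AA B (x s) P = (1 - s) * rho := by
      have : AA B (x s) P - (1 - s) * rho = 0 := hg
      linarith
    have e0 : AA B l (s • P + (1 - s) • l) = (1 - s) * W + s * rho := by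
      rw [AA_symm, hKtB, hPl, ← hW]
      ring
    have e1 : AA B (x s) (s • P + (1 - s) • l) =
        s * ((1 - s) * rho) + (1 - s) * ((1 - s) * W + s * rho) := by
      rw [AA_symm, hKtB, AA_symm P, hxBs, (hxlin s h0 h1.le).2]
    have e2 : AA B (s • P + (1 - s) • l) (s • P + (1 - s) • l) =
        s * ((1 - s) * rho) + (1 - s) * ((1 - s) * W + s * rho) := by
      rw [hKtB, e0, AA_symm P, hKtB, hBB, ← hrhodef]
      ring
    refine num_eq h (hxY s h0 h1.le) (htB s h0 h1.le) (fun E => ?_) ?_ ?_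
    · rw [htBo]
      exact hxB s h0 h1.le E
    · rw [← hl, e0, (hxlin s h0 h1.le).2]
    · have h5 := hx2 s h0 h1.le
      rw [hxBs] at h5
      rw [e1, e2]
      linarith
  refine ⟨hPP, ?_, ?_⟩
  · intro w hw t h0 h1 hyS
    rcases h1.lt_or_eq with h2 | h2
    · intro E
      rw [← htBo, ← hxeq t h0 h2]
      exact hxle t h0 h1 w hw hyS E
    · subst h2
      intro E
      rw [one_mul]
      by_contra hcon
      push Not at hcon
      have hBE : 0 < B.o P E := lt_of_le_of_lt (hw.2.2 E) hcon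
      obtain ⟨s, hs1, hs2⟩ : ∃ s, B.o w E / B.o P E < s ∧ s < 1 :=
        exists_between (by rwa [div_lt_one hBE])
      have hs0 : 0 ≤ s := le_trans (div_nonneg (hw.2.2 E) hBE.le) hs1.le
      have h3 := hxle s hs0 hs2.le w hw (fun F hF => by
        have h4 := hyS F hF
        have h5 := hP.2.2 F
        nlinarith) E
      rw [hxeq s hs0 hs2, htBo] at h3
      rw [div_lt_iff₀ hBE] at hs1
      linarith
  · intro w hgw hle
    have h1 := hsame w hgw hle
    have h2 : AA B w P ≤ 0 := by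
      rw [← hBB]
      exact hmono hP hgw hP hle
    have h3 : AA B w w ≤ 0 := by
      have := hmono hP hgw hgw hle
      rw [AA_symm P] at this
      linarith
    have h4 := hgn hgw hgw
    have h5 := hgn hgw hP
    have heq := num_eq h hP hgw hle h1.symm (by
      rw [hBB, AA_symm P]
      linarith)
    intro E
    rw [← heq]

end Pool.Agent.H88.XN
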